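import Pool.Agent.R993.RR.Defs

/-!
Piece St9 of project RR (problem MP_7a141f_an): every deep section leads to a loopable one.
-/

namespace Pool.Agent.R676.RR

open Filter Topology Pool.Agent.R993.RR

set_option exponentiation.threshold 6000

lemma eps_pos : (0 : ℝ) < 1 / 2 ^ 1100 := by positivity

lemma eps_le : (1 : ℝ) / 2 ^ 1250 ≤ 1 / 2 ^ 1100 :=
  one_div_le_one_div_of_le (by positivity) (pow_le_pow_right₀ (by norm_num) (by norm_num))

lemma B_le : B ≤ 1 / 100 * (1 / 2 ^ 1100) := by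
  unfold B
  have h : (100 : ℝ) * 2 ^ 1100 ≤ 2 ^ 1664 := by
    calc (100 : ℝ) * 2 ^ 1100 ≤ 2 ^ 564 * 2 ^ 1100 := by
          apply mul_le_mul_of_nonneg_right _ (by positivity)
          calc (100 : ℝ) ≤ 2 ^ 7 := by norm_num
            _ ≤ 2 ^ 564 := pow_le_pow_right₀ (by norm_num) (by norm_num)
      _ = 2 ^ 1664 := by rw [← pow_add]
  calc (1 : ℝ) / 2 ^ 1664 ≤ 1 / (100 * 2 ^ 1100) :=
        one_div_le_one_div_of_le (by positivity) h
    _ = 1 / 100 * (1 / 2 ^ 1100) := by rw [one_div_mul_one_div]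

lemma tau_le : tau ≤ 1 / 100 := by
  unfold tau
  apply one_div_le_one_div_of_le (by norm_num)
  calc (100 : ℝ) ≤ 2 ^ 7 := by norm_num
    _ ≤ 2 ^ 150 := pow_le_pow_right₀ (by norm_num) (by norm_num)

lemma tau_nonneg : 0 ≤ tau := by unfold tau; positivity

lemma f_le (x : ℝ) (hx : 0 ≤ x) : f x ≤ x / 2 := by
  unfold f
  rw [div_le_div_iff₀ (by positivity) (by norm_num)]
  nlinarith [sq_nonneg (x - 1), mul_nonneg hx (sq_nonneg (x - 1))]

lemma step (h3 : St3) (y : ℕ → ℝ) (hy : IsSol y) (N : ℕ) (hN : Deep y N)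
    (hU : 1 / 2 ^ 1100 < U y N) : Deep y (N + 8) ∧ U y (N + 8) ≤ 3 / 4 * U y N := by
  obtain ⟨-, -, -, -, -, h6, -, h8⟩ := h3 y hy N hN (eps_le.trans hU.le)
  refine ⟨h6, ?_⟩
  have hU0 : 0 ≤ U y N := eps_pos.le.trans hU.le
  have h1 := f_le (U y N) hU0
  have h2 := B_le
  have h3 := tau_le
  have h4 := tau_nonneg
  have h5 : U y (N + 8) = B + y (N + 10) := rfl
  rw [h5]
  have h7 : (1 + tau) * f (U y N) ≤ (1 + 1 / 100) * (U y N / 2) :=
    mul_le_mul (by linarith) h1 (by unfold f; positivity) (by norm_num)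
  have h9 : 1 / 100 * (1 / 2 ^ 1100) ≤ 1 / 100 * U y N :=
    mul_le_mul_of_nonneg_left hU.le (by norm_num)
  linarith

/-- St9 -/
theorem st9 (h3 : St3) : St9 := by
  intro y hy N hN
  by_contra hcon
  push Not at hcon
  have key : ∀ k : ℕ, Deep y (N + 8 * k) ∧ U y (N + 8 * k) ≤ (3 / 4) ^ k * U y N := by
    intro k
    induction k with
    | zero => exact ⟨hN, by simp⟩
    | succ k ih =>
      have hgt : 1 / 2 ^ 1100 < U y (N + 8 * k) := by
        by_contra hle
        exact hcon _ ⟨ih.1, not_lt.mp hle⟩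
      obtain ⟨h1, h2⟩ := step h3 y hy _ ih.1 hgt
      have e : N + 8 * k + 8 = N + 8 * (k + 1) := by ring
      rw [e] at h1 h2
      refine ⟨h1, h2.trans ?_⟩
      rw [pow_succ]
      linarith [ih.2]
  have hU0 : 0 < U y N := by
    have : 0 < y (N + 2) := hy.pos _
    have := B_pos
    unfold U
    linarith
  obtain ⟨k, hk⟩ := exists_pow_lt_of_lt_one (div_pos eps_pos hU0)
    (show (3 / 4 : ℝ) < 1 by norm_num)
  rw [lt_div_iff₀ hU0] at hk
  exact hcon _ ⟨(key k).1, (key k).2.trans hk.le⟩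

end Pool.Agent.R676.RR
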